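import Pool.Agent.PVD.StmtsL

/-!
# MP_e25c73_gt, block L, rows LOG, GLN, GIN (helper41)
-/

set_option autoImplicit false
open MeasureTheory

namespace Pool.Agent.PVD.L.H41

/-- quotients bounded by a constant are integrable -/
theorem ii_div {c F : ℝ → ℝ} {K : ℝ} (hc : Measurable c) (hF : Measurable F)
    (hp : ∀ t, 0 < t → t ≤ 1 → 0 < F t) (hb : ∀ t, 0 < t → t ≤ 1 → |c t| ≤ K * F t) :
    IntervalIntegrable (fun t => c t / F t) volume 0 1 := by
  apply (intervalIntegrable_const (c := K)).mono_fun' (hc.div hF).aestronglyMeasurable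
  refine (ae_restrict_iff' measurableSet_uIoc).2 (Filter.Eventually.of_forall fun t ht => ?_)
  rw [Set.uIoc_of_le zero_le_one] at ht
  have h1 := hp t ht.1 ht.2
  show ‖c t / F t‖ ≤ K
  rw [Real.norm_eq_abs, abs_div, abs_of_pos h1, div_le_iff₀ h1]
  exact hb t ht.1 ht.2

/-- the logarithm of a continuous function which is at least `κ t` is integrable -/
theorem ii_log {F : ℝ → ℝ} {κ : ℝ} (hκ : 0 < κ) (hF : Continuous F)
    (hp : ∀ t, 0 < t → t ≤ 1 → κ * t ≤ F t) :
    IntervalIntegrable (fun t => Real.log (F t)) volume 0 1 := by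
  obtain ⟨B, hB⟩ := (isCompact_Icc (a := (0:ℝ)) (b := 1)).exists_bound_of_continuousOn
    hF.continuousOn
  have hlog : IntervalIntegrable (fun t => |Real.log κ| + |Real.log t| + |Real.log (|B| + 1)|)
      volume 0 1 := by
    apply IntervalIntegrable.add
    · exact (intervalIntegrable_const).add (intervalIntegral.intervalIntegrable_log').abs
    · exact intervalIntegrable_const
  apply hlog.mono_fun' (hF.measurable.log).aestronglyMeasurable
  refine (ae_restrict_iff' measurableSet_uIoc).2 (Filter.Eventually.of_forall fun t ht => ?_)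
  rw [Set.uIoc_of_le zero_le_one] at ht
  have h1 := hp t ht.1 ht.2
  have h2 : 0 < κ * t := mul_pos hκ ht.1
  have h3 : 0 < F t := by linarith
  have h4 : F t ≤ |B| + 1 := by
    have := hB t ⟨ht.1.le, ht.2⟩
    rw [Real.norm_eq_abs] at this
    have h5 := le_abs_self (F t)
    have h6 := le_abs_self B
    linarith
  have h5 : Real.log (κ * t) ≤ Real.log (F t) := Real.log_le_log h2 h1
  have h6 : Real.log (F t) ≤ Real.log (|B| + 1) := Real.log_le_log h3 h4
  rw [Real.log_mul hκ.ne' ht.1.ne'] at h5
  show ‖Real.log (F t)‖ ≤ |Real.log κ| + |Real.log t| + |Real.log (|B| + 1)|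
  rw [Real.norm_eq_abs, abs_le]
  have h7 := neg_abs_le (Real.log κ)
  have h8 := neg_abs_le (Real.log t)
  have h9 := le_abs_self (Real.log (|B| + 1))
  have h10 := abs_nonneg (Real.log κ)
  have h11 := abs_nonneg (Real.log t)
  have h12 := abs_nonneg (Real.log (|B| + 1))
  constructor <;> linarith

/-- bound for an integral over `[0,1]` -/
theorem int_le {F : ℝ → ℝ} {C : ℝ} (h : ∀ t, 0 < t → t ≤ 1 → |F t| ≤ C) :
    |∫ t in (0:ℝ)..1, F t| ≤ C := by
  have := intervalIntegral.norm_integral_le_of_norm_le_const (a := (0:ℝ)) (b := 1) (f := F) (C := C)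
    (fun t ht => by
      rw [Set.uIoc_of_le zero_le_one] at ht
      exact h t ht.1 ht.2)
  simpa using this

/-- `|log (1 + x) - x| ≤ x ^ 2` -/
theorem log_quad {x : ℝ} (hx : |x| ≤ 1 / 2) : |Real.log (1 + x) - x| ≤ x ^ 2 := by
  have h1 := Real.abs_log_sub_add_sum_range_le (x := -x) (by rw [abs_neg]; linarith) 4
  rw [abs_neg] at h1
  simp only [Finset.sum_range_succ, Finset.sum_range_zero] at h1
  norm_num at h1
  have h0 := abs_nonneg x
  have h2 : |x| ^ 5 / (1 - |x|) ≤ 2 * |x| ^ 5 := by
    rw [div_le_iff₀ (by linarith)]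
    have : 0 ≤ |x| ^ 5 := by positivity
    nlinarith
  have h3 := h1.trans h2
  rw [abs_le] at h3
  have e2 : |x| ^ 2 = x ^ 2 := sq_abs x
  have b3 : |x ^ 3| ≤ x ^ 2 / 2 := by
    rw [abs_pow, pow_succ, e2]
    nlinarith [sq_nonneg x]
  have b4 : x ^ 4 ≤ x ^ 2 / 4 := by
    have : x ^ 4 = |x| ^ 2 * |x| ^ 2 := by rw [e2]; ring
    rw [this, e2]
    have h5 : x ^ 2 ≤ 1 / 4 := by rw [← e2]; nlinarith
    nlinarith [sq_nonneg x]
  have b4' : 0 ≤ x ^ 4 := by positivity
  have b5 : |x| ^ 5 ≤ x ^ 2 / 8 := by
    have : |x| ^ 5 = |x| ^ 2 * |x| ^ 3 := by ring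
    rw [this, e2]
    have h5 : |x| ^ 3 ≤ 1 / 8 := by
      calc |x| ^ 3 ≤ (1 / 2) ^ 3 := pow_le_pow_left₀ h0 hx 3
        _ = 1 / 8 := by norm_num
    nlinarith [sq_nonneg x]
  have b3' := abs_le.1 b3
  rw [abs_le]
  constructor
  · nlinarith [h3.1, h3.2, b3'.1, b3'.2]
  · nlinarith [h3.1, h3.2, b3'.1, b3'.2]

theorem gln : GlnStmt := by
  intro f r rho hf hr hlo h0 h1 hb
  have hfp : ∀ t, 0 < t → t ≤ 1 → 0 < f t := fun t h2 h3 => lt_of_lt_of_le h2 (hlo t h2.le h3)
  have i1 : IntervalIntegrable (fun t => Real.log (f t + r t)) volume 0 1 := by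
    apply ii_log (κ := 1 / 2) (by norm_num) (hf.add hr)
    intro t h2 h3
    have h4 := abs_le.1 (hb t h2.le h3)
    have h5 := hlo t h2.le h3
    show 1 / 2 * t ≤ f t + r t
    nlinarith [hfp t h2 h3]
  have i2 : IntervalIntegrable (fun t => Real.log (f t)) volume 0 1 := by
    apply ii_log (κ := 1) (by norm_num) hf
    intro t h2 h3
    rw [one_mul]
    exact hlo t h2.le h3
  have i3 : IntervalIntegrable (fun t => r t / f t) volume 0 1 :=
    ii_div hr.measurable hf.measurable hfp (fun t h2 h3 => hb t h2.le h3)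
  rw [← intervalIntegral.integral_sub i1 i2, ← intervalIntegral.integral_sub (i1.sub i2) i3]
  apply int_le
  intro t h2 h3
  have h4 := hfp t h2 h3
  have h5 : |r t / f t| ≤ rho := by
    rw [abs_div, abs_of_pos h4, div_le_iff₀ h4]
    exact hb t h2.le h3
  have h6 : f t + r t = f t * (1 + r t / f t) := by field_simp
  have h7 : (0:ℝ) < 1 + r t / f t := by
    have := (abs_le.1 h5).1
    linarith
  rw [h6, Real.log_mul h4.ne' h7.ne']
  have h8 := log_quad (h5.trans h1)
  have h9 : (r t / f t) ^ 2 ≤ rho ^ 2 := by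
    rw [← sq_abs (r t / f t)]
    exact pow_le_pow_left₀ (abs_nonneg _) h5 2
  have h10 : Real.log (f t) + Real.log (1 + r t / f t) - Real.log (f t) - r t / f t =
      Real.log (1 + r t / f t) - r t / f t := by ring
  rw [h10]
  exact h8.trans h9

theorem gin : GinStmt := by
  intro f r c rho K hf hr hc hlo h0 h1 hK hb hcb
  have hfp : ∀ t, 0 < t → t ≤ 1 → 0 < f t := fun t h2 h3 => lt_of_lt_of_le h2 (hlo t h2.le h3)
  have hfr : ∀ t, 0 < t → t ≤ 1 → f t / 2 ≤ f t + r t := by
    intro t h2 h3
    have h4 := abs_le.1 (hb t h2.le h3)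
    nlinarith [hfp t h2 h3]
  have i1 : IntervalIntegrable (fun t => c t / (f t + r t)) volume 0 1 := by
    apply ii_div (K := 2 * K) hc.measurable (hf.add hr).measurable
    · intro t h2 h3
      have := hfr t h2 h3
      have := hfp t h2 h3
      show 0 < f t + r t
      linarith
    · intro t h2 h3
      have h4 := hfr t h2 h3
      have h5 := hcb t h2.le h3
      show |c t| ≤ 2 * K * (f t + r t)
      nlinarith
  have i2 : IntervalIntegrable (fun t => c t / f t) volume 0 1 :=
    ii_div hc.measurable hf.measurable hfp (fun t h2 h3 => hcb t h2.le h3)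
  have i3 : IntervalIntegrable (fun t => c t * r t / f t ^ 2) volume 0 1 := by
    apply ii_div (K := K * rho) (hc.mul hr).measurable (hf.pow 2).measurable
    · intro t h2 h3
      have := hfp t h2 h3
      show 0 < f t ^ 2
      positivity
    · intro t h2 h3
      show |c t * r t| ≤ K * rho * f t ^ 2
      rw [abs_mul]
      calc |c t| * |r t| ≤ (K * f t) * (rho * f t) :=
            mul_le_mul (hcb t h2.le h3) (hb t h2.le h3) (abs_nonneg _)
              (mul_nonneg hK (hfp t h2 h3).le)
        _ = K * rho * f t ^ 2 := by ring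
  rw [← intervalIntegral.integral_sub i1 i2, ← intervalIntegral.integral_add (i1.sub i2) i3]
  apply int_le
  intro t h2 h3
  have h4 := hfp t h2 h3
  have h5 := hfr t h2 h3
  have h6 : 0 < f t + r t := by linarith
  have h7 : c t / (f t + r t) - c t / f t + c t * r t / f t ^ 2 =
      c t * r t ^ 2 / (f t ^ 2 * (f t + r t)) := by
    field_simp
    ring
  rw [h7, abs_div, abs_mul, abs_of_pos (by positivity : 0 < f t ^ 2 * (f t + r t)),
    div_le_iff₀ (by positivity)]
  have h8 : |r t ^ 2| ≤ (rho * f t) ^ 2 := by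
    rw [abs_pow]
    exact pow_le_pow_left₀ (abs_nonneg _) (hb t h2.le h3) 2
  calc |c t| * |r t ^ 2| ≤ (K * f t) * (rho * f t) ^ 2 :=
        mul_le_mul (hcb t h2.le h3) h8 (abs_nonneg _) (mul_nonneg hK h4.le)
    _ = 2 * K * rho ^ 2 * (f t ^ 2 * (f t / 2)) := by ring
    _ ≤ 2 * K * rho ^ 2 * (f t ^ 2 * (f t + r t)) := by
        apply mul_le_mul_of_nonneg_left _ (by positivity)
        exact mul_le_mul_of_nonneg_left h5 (by positivity)

/-- `|m t (1 - t) - f t| ≤ (m / e) t ^ 2` -/
theorem adm_num {e m : ℝ} {f : ℝ → ℝ} (h : Adm e m f) {t : ℝ} (h0 : 0 < t) (h1 : t ≤ 1) :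
    |m * t * (1 - t) - f t| ≤ m / e * t ^ 2 := by
  have he := h.e0
  have hm := h.m1
  have hm0 : 0 < m := by linarith
  rcases le_total t e with h2 | h2
  · rw [h.near t h0.le h2]
    have h3 : m * t * (1 - t) - m * t = -(m * t ^ 2) := by ring
    rw [h3, abs_neg, abs_of_nonneg (by positivity)]
    apply mul_le_mul_of_nonneg_right _ (by positivity)
    rw [le_div_iff₀ he]
    nlinarith [h.e1]
  · have h3 := h.hi t h0.le h1
    have h4 := h.lo t h0.le h1
    have h5 : |m * t * (1 - t) - f t| ≤ m * t := by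
      rw [abs_le]
      have h6 : 0 ≤ m * t * (1 - t) := by
        apply mul_nonneg (by positivity); linarith
      have h7 : m * t * (1 - t) ≤ m * t := by
        nlinarith [mul_pos hm0 h0]
      constructor <;> linarith
    refine h5.trans ?_
    rw [div_mul_eq_mul_div, le_div_iff₀ he]
    have : 0 < m * t := by positivity
    nlinarith

/-- `|log (1 + x) - log (1 + y)| ≤ |x - y|` -/
theorem log_lip {x y : ℝ} (hx : 0 ≤ x) (hy : 0 ≤ y) :
    |Real.log (1 + x) - Real.log (1 + y)| ≤ |x - y| := by
  have key : ∀ a b : ℝ, 0 ≤ a → 0 ≤ b → Real.log (1 + a) - Real.log (1 + b) ≤ |a - b| := by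
    intro a b ha hb
    have h1 : (0:ℝ) < 1 + a := by linarith
    have h2 : (0:ℝ) < 1 + b := by linarith
    rw [← Real.log_div h1.ne' h2.ne']
    have h3 := Real.log_le_sub_one_of_pos (div_pos h1 h2)
    have h4 : (1 + a) / (1 + b) - 1 = (a - b) / (1 + b) := by field_simp; ring
    rw [h4] at h3
    refine h3.trans ?_
    rw [div_le_iff₀ h2]
    have h5 := le_abs_self (a - b)
    nlinarith [abs_nonneg (a - b)]
  rw [abs_le]
  constructor
  · have := key y x hy hx
    rw [abs_sub_comm] at this
    linarith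
  · exact key x y hx hy

theorem log_row : LogStmt := by
  intro e m q f h hq0 hq1
  have he := h.e0
  have hm := h.m1
  have hm0 : 0 < m := by linarith
  have hfp : ∀ t, 0 < t → t ≤ 1 → 0 < f t := fun t h2 h3 => lt_of_lt_of_le h2 (h.lo t h2.le h3)
  have i1 : IntervalIntegrable (fun t => Real.log (f t + q * (1 - t))) volume 0 1 := by
    apply ii_log (κ := 1) (by norm_num)
      (h.cont.add (continuous_const.mul (continuous_const.sub continuous_id)))
    intro t h2 h3
    have := h.lo t h2.le h3
    have h4 : 0 ≤ q * (1 - t) := mul_nonneg hq0.le (by linarith)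
    show 1 * t ≤ f t + q * (1 - t)
    linarith
  have i2 : IntervalIntegrable (fun t => Real.log (f t)) volume 0 1 := by
    apply ii_log (κ := 1) (by norm_num) h.cont
    intro t h2 h3
    rw [one_mul]
    exact h.lo t h2.le h3
  have i3 : IntervalIntegrable (fun t => Real.log (m * t + q)) volume 0 1 := by
    apply ii_log (κ := m) hm0 ((continuous_const.mul continuous_id).add continuous_const)
    intro t h2 h3
    show m * t ≤ m * t + q
    linarith
  have i4 : IntervalIntegrable (fun t => Real.log (m * t)) volume 0 1 := by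
    apply ii_log (κ := m) hm0 (continuous_const.mul continuous_id)
    intro t h2 h3
    exact le_refl _
  have e3 : ∫ t in (0:ℝ)..1, Real.log (m * t + q) =
      m⁻¹ * ((m + q) * Real.log (m + q) - q * Real.log q - (m + q) + q) := by
    have := intervalIntegral.integral_comp_mul_add (a := 0) (b := 1) (fun x => Real.log x) hm0.ne' q
    rw [this, integral_log, smul_eq_mul]
    simp only [mul_zero, zero_add, mul_one]
  have e4 : ∫ t in (0:ℝ)..1, Real.log (m * t) = Real.log m - 1 := by
    have := intervalIntegral.integral_comp_mul_left (a := 0) (b := 1) (fun x => Real.log x) hm0.ne'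
    rw [this, integral_log, smul_eq_mul]
    simp only [mul_zero, mul_one, zero_mul, sub_zero, add_zero]
    field_simp
  have hd : |(∫ t in (0:ℝ)..1, ((Real.log (f t + q * (1 - t)) - Real.log (f t)) -
      (Real.log (m * t + q) - Real.log (m * t))))| ≤ q / e := by
    apply int_le
    intro t h2 h3
    have h4 := hfp t h2 h3
    have h5 : 0 < m * t := by positivity
    have h6 : 0 ≤ q * (1 - t) := mul_nonneg hq0.le (by linarith)
    have a1 : Real.log (f t + q * (1 - t)) - Real.log (f t) =
        Real.log (1 + q * (1 - t) / f t) := by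
      rw [← Real.log_div (by linarith) h4.ne']
      congr 1
      field_simp
    have a2 : Real.log (m * t + q) - Real.log (m * t) = Real.log (1 + q / (m * t)) := by
      rw [← Real.log_div (by linarith) h5.ne']
      congr 1
      field_simp
    rw [a1, a2]
    refine (log_lip (by positivity) (by positivity)).trans ?_
    have h7 : q * (1 - t) / f t - q / (m * t) = q * (m * t * (1 - t) - f t) / (f t * (m * t)) := by
      field_simp
    rw [h7, abs_div, abs_mul, abs_of_pos hq0, abs_of_pos (by positivity : 0 < f t * (m * t)),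
      div_le_iff₀ (by positivity)]
    have h8 := adm_num h h2 h3
    have h9 : m / e * t ^ 2 ≤ 1 / e * (f t * (m * t)) := by
      have h10 := h.lo t h2.le h3
      have h11 : m / e * t ^ 2 = 1 / e * (t * (m * t)) := by ring
      rw [h11]
      apply mul_le_mul_of_nonneg_left _ (by positivity)
      exact mul_le_mul_of_nonneg_right h10 h5.le
    calc q * |m * t * (1 - t) - f t| ≤ q * (1 / e * (f t * (m * t))) :=
          mul_le_mul_of_nonneg_left (h8.trans h9) hq0.le
      _ = q / e * (f t * (m * t)) := by ring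
  rw [intervalIntegral.integral_sub (i1.sub i2) (i3.sub i4), intervalIntegral.integral_sub i1 i2,
    intervalIntegral.integral_sub i3 i4, e3, e4] at hd
  -- the explicit integral
  set b := q / m with hb
  have hb0 : 0 < b := div_pos hq0 hm0
  have hbq : b ≤ q := div_le_self hq0.le hm
  have hmb : m * b = q := by rw [hb]; field_simp
  have hlmq : Real.log (m + q) = Real.log m + Real.log (1 + b) := by
    rw [← Real.log_mul hm0.ne' (by linarith), mul_add, mul_one, hmb]
  have hE : m⁻¹ * ((m + q) * Real.log (m + q) - q * Real.log q - (m + q) + q) -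
      (Real.log m - 1) - q * Real.log (1 / q) / m =
      (1 + b) * Real.log (1 + b) + b * Real.log m := by
    rw [hlmq, one_div, Real.log_inv, hb]
    field_simp
    ring
  have c1 : 0 ≤ (1 + b) * Real.log (1 + b) :=
    mul_nonneg (by linarith) (Real.log_nonneg (by linarith))
  have c2 : (1 + b) * Real.log (1 + b) ≤ 2 * q := by
    have h1 := Real.log_le_sub_one_of_pos (by linarith : (0:ℝ) < 1 + b)
    have h2 : (1 + b) * Real.log (1 + b) ≤ (1 + b) * b := by
      apply mul_le_mul_of_nonneg_left _ (by linarith)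
      linarith
    nlinarith
  have c3 : 0 ≤ b * Real.log m := mul_nonneg hb0.le (Real.log_nonneg hm)
  have c4 : b * Real.log m ≤ q := by
    have h1 := Real.log_le_sub_one_of_pos hm0
    calc b * Real.log m ≤ b * m := by
          apply mul_le_mul_of_nonneg_left _ hb0.le
          linarith
      _ = q := by rw [mul_comm]; exact hmb
  have hfin : (∫ t in (0:ℝ)..1, Real.log (f t + q * (1 - t))) - (∫ t in (0:ℝ)..1, Real.log (f t))
      - q * Real.log (1 / q) / m =
      ((∫ t in (0:ℝ)..1, Real.log (f t + q * (1 - t))) - (∫ t in (0:ℝ)..1, Real.log (f t)) -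
        (m⁻¹ * ((m + q) * Real.log (m + q) - q * Real.log q - (m + q) + q) - (Real.log m - 1)))
      + ((1 + b) * Real.log (1 + b) + b * Real.log m) := by
    rw [← hE]; ring
  rw [hfin]
  refine (abs_add_le _ _).trans ?_
  have c5 : |(1 + b) * Real.log (1 + b) + b * Real.log m| ≤ 3 * q := by
    rw [abs_of_nonneg (by linarith)]
    linarith
  have c6 : q * (1 / e + 3) = q / e + 3 * q := by ring
  rw [c6]
  exact add_le_add hd c5

end Pool.Agent.PVD.L.H41
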